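import Mathlib
import Pool.Agent.H48.Hyp

set_option autoImplicit false

namespace Pool.Agent.Results.MP_18c163_nt.Proof

open PowerSeries Finset Pool.Agent.H48.Hyp

/-- The rising factorial. -/
def poch (x : ℚ) (n : ℕ) : ℚ := ∏ i ∈ range n, (x + i)

/-- The Gauss series at the argument `4 t`. -/
def F (α β γ : ℚ) : ℚ⟦X⟧ :=
  mk fun n => poch α n * poch β n / (poch γ n * n.factorial) * 4 ^ n

theorem p1 (x : ℚ) (n : ℕ) : poch x (n + 1) = poch x n * (x + n) := prod_range_succ _ _

theorem p2 {x : ℚ} (hx : 0 < x) (n : ℕ) : poch (x + 1) n = poch x n * (x + n) / x := by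
  rw [← p1, poch, poch, prod_range_succ', eq_div_iff hx.ne']
  simp [add_assoc, add_comm (1 : ℚ)]

theorem p3 {x : ℚ} (hx : 0 < x) (n : ℕ) : poch x n ≠ 0 :=
  prod_ne_zero_iff.2 fun i _ => by positivity

theorem F0 (α β γ : ℚ) : coeff 0 (F α β γ) = 1 := by simp [F, poch]

theorem hy (n : ℕ) : (2 * n + 2) * (2 * n + 1) * coeff (n + 1) (F (1 / 4) (1 / 4) (1 / 2)) =
    (4 * n + 1) ^ 2 * coeff n (F (1 / 4) (1 / 4) (1 / 2)) := by
  have := p3 one_half_pos n
  simp only [F, coeff_mk, p1, Nat.factorial_succ]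
  push_cast
  field_simp
  ring

theorem all {i j : ℕ} (hi : Odd i) (hj : Odd j)
    (h : ∃ g ∈ S, F (i / 4) (i / 4) (j / 2) = F (1 / 4) (1 / 4) (1 / 2) * g) (a b c : ℕ) :
    ∃ g ∈ S, F (i / 4 + a) (i / 4 + b) (j / 2 + c) = F (1 / 4) (1 / 4) (1 / 2) * g := by
  have h1 : (0 : ℚ) < i := by exact_mod_cast hi.pos
  have h2 : (0 : ℚ) < j := by exact_mod_cast hj.pos
  induction c with
  | succ c ih =>
    refine down (F0 _ _ _) hy ih (k := j + 2 * c) (hj.natCast.add_even (by simp)) fun n => ?_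
    have := p3 (x := j / 2 + c) (by positivity) n
    simp only [F, coeff_mk, Nat.cast_succ, ← add_assoc]
    rw [p2 (by positivity)]
    push_cast
    field_simp
    ring
  | zero =>
  have := p3 (x := j / 2 + (0 : ℕ)) (by positivity)
  induction b with
  | succ b ih =>
    refine up (F0 _ _ _) hy ih (k := i + 4 * b) (hi.natCast.add_even ⟨2 * b, by ring⟩) fun n => ?_
    simp only [F, coeff_mk, Nat.cast_succ, ← add_assoc]
    rw [p2 (by positivity)]
    push_cast
    field_simp
    ring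
  | zero =>
  induction a with
  | succ a ih =>
    refine up (F0 _ _ _) hy ih (k := i + 4 * a) (hi.natCast.add_even ⟨2 * a, by ring⟩) fun n => ?_
    simp only [F, coeff_mk, Nat.cast_succ, ← add_assoc]
    rw [p2 (by positivity)]
    push_cast
    field_simp
    ring
  | zero => simpa using h

theorem result (a b c d e f n : ℕ) : Odd (coeff n (F (3 / 4 + a) (3 / 4 + b) (3 / 2 + c) *
    (F (1 / 4 + d) (1 / 4 + e) (1 / 2 + f))⁻¹)).den := by
  have h1 := all (i := 3) (j := 3) (by decide) (by decide) (base (F0 _ _ _) hy (F0 _ _ _) fun n => by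
    have := p3 (x := (3 : ℕ) / 2) (by positivity) n
    simp only [F, coeff_mk, p1, Nat.factorial_succ]
    push_cast at this ⊢
    field_simp
    ring) a b c
  have h2 := all odd_one odd_one ⟨1, one_mem _, by simp⟩ d e f
  push_cast at h1 h2
  refine memO.1 (quot (F0 _ _ _) h1 h2 (F0 _ _ _) ?_ n)
  rw [mul_left_comm, PowerSeries.mul_inv_cancel, mul_one]
  rw [← coeff_zero_eq_constantCoeff_apply, F0]
  simp

end Pool.Agent.Results.MP_18c163_nt.Proof
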